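import Mathlib
import Pool.Agent.Y731.GV.Fin
import Pool.Agent.Y731.MI.Place

/-!
# Orbifold points: counting functions and multiplicities
-/

set_option autoImplicit false
set_option linter.unusedSectionVars false
set_option linter.unusedVariables false

namespace Pool.Agent.Y731.GO

open MvPolynomial Pool.Agent.Y731.GV

/-- the sum of `v_p(z) log p` over the primes `p` outside `S` -/
noncomputable def cnt (S : Finset ℕ) (z : ℤ) : ℝ :=
  ∑ p ∈ z.natAbs.primeFactors \ S, ((z.natAbs.factorization p : ℕ) : ℝ) * Real.log p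

section cnt

variable (S : Finset ℕ)

theorem cnt_eq {z : ℤ} (T : Finset ℕ) (hT : z.natAbs.primeFactors ⊆ T) :
    cnt S z = ∑ p ∈ T \ S, ((z.natAbs.factorization p : ℕ) : ℝ) * Real.log p := by
  unfold cnt
  refine Finset.sum_subset (Finset.sdiff_subset_sdiff hT le_rfl) fun p hp hp' => ?_
  rw [Finset.mem_sdiff] at hp hp'
  have h1 : p ∉ z.natAbs.primeFactors := fun h => hp' ⟨h, hp.2⟩
  rw [← Nat.support_factorization, Finsupp.notMem_support_iff] at h1
  rw [h1]
  simp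

theorem cnt_nonneg (z : ℤ) : 0 ≤ cnt S z :=
  Finset.sum_nonneg fun p _ => mul_nonneg (Nat.cast_nonneg _) (Real.log_natCast_nonneg p)

theorem cnt_mul {z w : ℤ} (hz : z ≠ 0) (hw : w ≠ 0) : cnt S (z * w) = cnt S z + cnt S w := by
  have hz' : z.natAbs ≠ 0 := Int.natAbs_ne_zero.2 hz
  have hw' : w.natAbs ≠ 0 := Int.natAbs_ne_zero.2 hw
  have h1 : (z * w).natAbs = z.natAbs * w.natAbs := Int.natAbs_mul z w
  rw [cnt_eq S (z := z * w) (z * w).natAbs.primeFactors le_rfl,
    cnt_eq S (z := z) (z * w).natAbs.primeFactors (by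
      rw [h1, Nat.primeFactors_mul hz' hw']
      exact Finset.subset_union_left),
    cnt_eq S (z := w) (z * w).natAbs.primeFactors (by
      rw [h1, Nat.primeFactors_mul hz' hw']
      exact Finset.subset_union_right), ← Finset.sum_add_distrib]
  refine Finset.sum_congr rfl fun p _ => ?_
  rw [h1, Nat.factorization_mul hz' hw', Finsupp.add_apply]
  push_cast
  ring

theorem cnt_one : cnt S 1 = 0 := by
  unfold cnt
  simp

theorem cnt_prod {ι : Type} (s : Finset ι) (z : ι → ℤ) (hz : ∀ i ∈ s, z i ≠ 0) :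
    cnt S (∏ i ∈ s, z i) = ∑ i ∈ s, cnt S (z i) := by
  classical
  induction s using Finset.induction_on with
  | empty => rw [Finset.prod_empty, Finset.sum_empty, cnt_one]
  | insert a s ha ih =>
    rw [Finset.prod_insert ha, Finset.sum_insert ha,
      cnt_mul S (hz a (Finset.mem_insert_self a s))
        (Finset.prod_ne_zero_iff.2 fun i hi => hz i (Finset.mem_insert_of_mem hi)),
      ih fun i hi => hz i (Finset.mem_insert_of_mem hi)]

theorem cnt_pow {z : ℤ} (hz : z ≠ 0) (n : ℕ) : cnt S (z ^ n) = n * cnt S z := by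
  have h1 := cnt_prod S (Finset.range n) (fun _ => z) (fun _ _ => hz)
  rw [Finset.prod_const, Finset.card_range, Finset.sum_const, Finset.card_range,
    nsmul_eq_mul] at h1
  exact h1

theorem cnt_normalize (z : ℤ) : cnt S (normalize z) = cnt S z := by
  unfold cnt
  rw [← Int.abs_eq_normalize, Int.natAbs_abs]

/-- the counting function is at most the logarithm -/
theorem cnt_le_log {z : ℤ} (hz : z ≠ 0) : cnt S z ≤ Real.log |(z : ℝ)| := by
  have hz' : z.natAbs ≠ 0 := Int.natAbs_ne_zero.2 hz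
  have h1 : Real.log |(z : ℝ)| = ∑ p ∈ z.natAbs.primeFactors,
      ((z.natAbs.factorization p : ℕ) : ℝ) * Real.log p := by
    have h2 : |(z : ℝ)| = ((z.natAbs : ℕ) : ℝ) := by
      rw [Nat.cast_natAbs, Int.cast_abs]
    rw [h2]
    conv_lhs => rw [← Nat.prod_factorization_pow_eq_self hz']
    rw [Finsupp.prod, Nat.support_factorization, Nat.cast_prod, Real.log_prod]
    · refine Finset.sum_congr rfl fun p _ => ?_
      rw [Nat.cast_pow, Real.log_pow]
    · intro p hp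
      exact_mod_cast pow_ne_zero _ (Nat.prime_of_mem_primeFactors hp).ne_zero
  rw [h1]
  exact Finset.sum_le_sum_of_subset_of_nonneg Finset.sdiff_subset fun p _ _ =>
    mul_nonneg (Nat.cast_nonneg _) (Real.log_natCast_nonneg p)

theorem cnt_eq_zero {z : ℤ} (h : ∀ p : ℕ, p.Prime → (p : ℤ) ∣ z → z ≠ 0 → p ∈ S) :
    cnt S z = 0 := by
  unfold cnt
  by_cases hz : z = 0
  · subst hz
    simp
  · rw [Finset.sdiff_eq_empty_iff_subset.2, Finset.sum_empty]
    intro p hp
    have h1 := Nat.mem_primeFactors.1 hp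
    exact h p h1.1 (Int.natCast_dvd.2 h1.2.1) hz

end cnt

/-- the heights `h_(D_i)` are at least the counting functions, up to a constant -/
theorem cnt_le_hcomp {M w : ℕ} (F : Fin w → MvPolynomial (Fin M) ℤ) (d : Fin w → ℕ)
    (hF : ∀ j, (F j).IsHomogeneous (d j)) : ∃ B : ℝ, 0 ≤ B ∧ ∀ (S : Finset ℕ) (x : Fin M → ℤ),
      Finset.univ.gcd x = 1 → (∃ j, eval x (F j) ≠ 0) →
        cnt S (Finset.univ.gcd fun j => eval x (F j)) ≤ hcomp F d x + B := by
  classical
  choose c hc1 hc using fun j => Pool.Agent.Y731.MI.eval_le (F j) (d j) (hF j)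
  set B0 : ℝ := 1 + ∑ j, c j with hB0
  have hB1 : 1 ≤ B0 := by
    have : 0 ≤ ∑ j, c j := Finset.sum_nonneg fun j _ => by linarith [hc1 j]
    linarith
  refine ⟨Real.log B0, Real.log_nonneg hB1, fun S x hx hxF => ?_⟩
  obtain ⟨j0, hj0⟩ := hxF
  have hg0 : (Finset.univ.gcd fun j => eval x (F j)) ≠ 0 := by
    intro h
    exact hj0 (Finset.gcd_eq_zero_iff.1 h j0 (Finset.mem_univ _))
  have hgn : (0 : ℤ) ≤ Finset.univ.gcd fun j => eval x (F j) := by
    have h1 := Finset.normalize_gcd (s := Finset.univ) (f := fun j => eval x (F j))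
    rw [← h1, ← Int.abs_eq_normalize]
    exact abs_nonneg _
  have h1 := cnt_le_log S hg0
  have h2 : |((Finset.univ.gcd fun j => eval x (F j) : ℤ) : ℝ)| =
      ((Finset.univ.gcd fun j => eval x (F j) : ℤ) : ℝ) := abs_of_nonneg (by exact_mod_cast hgn)
  rw [h2] at h1
  -- the infinite place
  have hH : ∀ i, |(x i : ℝ)| ≤ (htv x : ℝ) := by
    intro i
    have h3 : (x i).natAbs ≤ htv x := Finset.le_sup (f := fun i => (x i).natAbs) (Finset.mem_univ i)
    have h4 : |(x i : ℝ)| = ((x i).natAbs : ℝ) := by rw [Nat.cast_natAbs, Int.cast_abs]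
    rw [h4]
    exact_mod_cast h3
  have hH1 : (1 : ℝ) ≤ htv x := by
    have h3 : 1 ≤ htv x := by
      by_contra hno
      have h4 : htv x = 0 := by omega
      have h5 : ∀ i, x i = 0 := by
        intro i
        have h6 : (x i).natAbs ≤ htv x :=
          Finset.le_sup (f := fun i => (x i).natAbs) (Finset.mem_univ i)
        omega
      have h7 : Finset.univ.gcd x = 0 := Finset.gcd_eq_zero_iff.2 fun c _ => h5 c
      rw [h7] at hx
      exact zero_ne_one hx
    exact_mod_cast h3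
  have : Nonempty (Fin w) := ⟨j0⟩
  have h3 : (⨆ j, |((eval x (F j) : ℤ) : ℝ)| / (htv x : ℝ) ^ d j) ≤ B0 := by
    refine ciSup_le fun j => ?_
    rw [div_le_iff₀ (by positivity)]
    refine (hc j x _ (by positivity) hH).trans ?_
    refine mul_le_mul_of_nonneg_right ?_ (by positivity)
    have h4 := Finset.single_le_sum (f := c) (fun j _ => by linarith [hc1 j]) (Finset.mem_univ j)
    linarith
  have h4 : 0 < ⨆ j, |((eval x (F j) : ℤ) : ℝ)| / (htv x : ℝ) ^ d j := by
    refine lt_of_lt_of_le (?_ : 0 < |((eval x (F j0) : ℤ) : ℝ)| / (htv x : ℝ) ^ d j0)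
      (le_ciSup (f := fun j => |((eval x (F j) : ℤ) : ℝ)| / (htv x : ℝ) ^ d j)
        (Set.finite_range _).bddAbove j0)
    have : (0 : ℝ) < |((eval x (F j0) : ℤ) : ℝ)| := by
      rw [abs_pos]
      exact_mod_cast hj0
    positivity
  have h5 := Real.log_le_log h4 h3
  unfold hcomp
  linarith

/-- **Multiplicities.** `I0` are the orbifold components, with the multiplicities `m i`. -/
theorem orb {M q w p : ℕ} (S : Finset ℕ) (F : Fin q → Fin w → MvPolynomial (Fin M) ℤ)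
    (d : Fin q → Fin w → ℕ) (B : ℝ) (hB0 : 0 ≤ B) (x : Fin M → ℤ)
    (hB : ∀ i, cnt S (Finset.univ.gcd fun j => eval x (F i j)) ≤ hcomp (F i) (d i) x + B)
    (hFx : ∀ i, ∃ j, eval x (F i j) ≠ 0) (I0 : Finset (Fin q)) (m : Fin q → ℕ)
    (ex : Fin q → Fin p → ℕ) (hex : ∀ i ∈ I0, ∀ l, ex i l ≠ 0 → m i ≠ 0 ∧ m i ≤ ex i l)
    (hexl : ∀ l, ∃ i, 1 ≤ ex i l)
    (y : Fin p → ℤ) (c : Fin q → Fin w → ℤ)
    (hfac : ∀ i j, eval x (F i j) = c i j * ∏ l, y l ^ ex i l)
    (hc : ∀ i ∈ I0, cnt S (Finset.univ.gcd (c i)) = 0) :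
    cnt S ((∏ l, y l) * ∏ i, Finset.univ.gcd (c i)) ≤
      ∑ i ∈ I0, (m i : ℝ)⁻¹ * (hcomp (F i) (d i) x + B) +
      cnt S ((∏ l ∈ Finset.univ.filter (fun l => ∀ i ∈ I0, ex i l = 0), y l) *
        ∏ i ∈ I0ᶜ, Finset.univ.gcd (c i)) := by
  classical
  have hy0 : ∀ l, y l ≠ 0 := by
    intro l h0
    obtain ⟨i, hi⟩ := hexl l
    obtain ⟨j, hj⟩ := hFx i
    apply hj
    rw [hfac, Finset.prod_eq_zero (i := l) (Finset.mem_univ _)
      (by rw [h0, zero_pow (by omega)]), mul_zero]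
  have hc0 : ∀ i, Finset.univ.gcd (c i) ≠ 0 := by
    intro i h0
    obtain ⟨j, hj⟩ := hFx i
    apply hj
    rw [hfac, (Finset.gcd_eq_zero_iff.1 h0) j (Finset.mem_univ _), zero_mul]
  have hg : ∀ i, Finset.univ.gcd (fun j => eval x (F i j)) =
      Finset.univ.gcd (c i) * normalize (∏ l, y l ^ (ex i l)) := by
    intro i
    simp only [hfac]
    exact Finset.gcd_mul_right
  have hcg : ∀ i ∈ I0, cnt S (Finset.univ.gcd (fun j => eval x (F i j))) =
      ∑ l, (ex i l : ℝ) * cnt S (y l) := by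
    intro i hi
    have h1 : normalize (∏ l, y l ^ (ex i l)) ≠ 0 := by
      rw [Ne, normalize_eq_zero]
      exact Finset.prod_ne_zero_iff.2 fun l _ => pow_ne_zero _ (hy0 l)
    rw [hg, cnt_mul S (hc0 i) h1, hc i hi, zero_add, cnt_normalize,
      cnt_prod S _ _ fun l _ => pow_ne_zero _ (hy0 l)]
    exact Finset.sum_congr rfl fun l _ => cnt_pow S (hy0 l) _
  set L0 : Finset (Fin p) := Finset.univ.filter (fun l => ∀ i ∈ I0, ex i l = 0) with hL0
  -- the factors of the orbifold components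
  have h1 : ∑ l ∈ L0ᶜ, cnt S (y l) ≤
      ∑ i ∈ I0, (m i : ℝ)⁻¹ * cnt S (Finset.univ.gcd (fun j => eval x (F i j))) := by
    have h2 : ∑ i ∈ I0, (m i : ℝ)⁻¹ * cnt S (Finset.univ.gcd (fun j => eval x (F i j))) =
        ∑ l, ∑ i ∈ I0, (m i : ℝ)⁻¹ * ((ex i l : ℝ) * cnt S (y l)) := by
      rw [Finset.sum_comm]
      refine Finset.sum_congr rfl fun i hi => ?_
      rw [hcg i hi, Finset.mul_sum]
    rw [h2]
    have hnn : ∀ l, ∀ i ∈ I0, 0 ≤ (m i : ℝ)⁻¹ * ((ex i l : ℝ) * cnt S (y l)) := fun l i _ =>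
      mul_nonneg (by positivity) (mul_nonneg (by positivity) (cnt_nonneg S _))
    refine le_trans (Finset.sum_le_sum fun l hl => ?_)
      (Finset.sum_le_sum_of_subset_of_nonneg (Finset.subset_univ L0ᶜ) fun l _ _ =>
        Finset.sum_nonneg (hnn l))
    have h3 : ∃ i ∈ I0, ex i l ≠ 0 := by
      by_contra hno
      push Not at hno
      rw [Finset.mem_compl] at hl
      exact hl (Finset.mem_filter.2 ⟨Finset.mem_univ _, hno⟩)
    obtain ⟨i, hi, hil⟩ := h3
    refine le_trans ?_ (Finset.single_le_sum (hnn l) hi)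
    obtain ⟨h4, h5⟩ := hex i hi l hil
    have h6 : (0 : ℝ) < m i := by exact_mod_cast Nat.pos_of_ne_zero h4
    have h7 : (m i : ℝ) ≤ ex i l := by exact_mod_cast h5
    have h8 : 1 ≤ (m i : ℝ)⁻¹ * (ex i l : ℝ) := by
      rw [inv_mul_eq_div, le_div_iff₀ h6, one_mul]
      exact h7
    calc cnt S (y l) = 1 * cnt S (y l) := (one_mul _).symm
      _ ≤ ((m i : ℝ)⁻¹ * (ex i l : ℝ)) * cnt S (y l) :=
          mul_le_mul_of_nonneg_right h8 (cnt_nonneg S _)
      _ = _ := by ring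
  have h2 : cnt S ((∏ l, y l) * ∏ i, Finset.univ.gcd (c i)) =
      ∑ l, cnt S (y l) + ∑ i, cnt S (Finset.univ.gcd (c i)) := by
    rw [cnt_mul S (Finset.prod_ne_zero_iff.2 fun l _ => hy0 l)
      (Finset.prod_ne_zero_iff.2 fun i _ => hc0 i), cnt_prod S _ _ fun l _ => hy0 l,
      cnt_prod S _ _ fun i _ => hc0 i]
  have h3 : cnt S ((∏ l ∈ L0, y l) * ∏ i ∈ I0ᶜ, Finset.univ.gcd (c i)) =
      ∑ l ∈ L0, cnt S (y l) + ∑ i ∈ I0ᶜ, cnt S (Finset.univ.gcd (c i)) := by
    rw [cnt_mul S (Finset.prod_ne_zero_iff.2 fun l _ => hy0 l)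
      (Finset.prod_ne_zero_iff.2 fun i _ => hc0 i), cnt_prod S _ _ fun l _ => hy0 l,
      cnt_prod S _ _ fun i _ => hc0 i]
  have h4 : ∑ i, cnt S (Finset.univ.gcd (c i)) = ∑ i ∈ I0ᶜ, cnt S (Finset.univ.gcd (c i)) := by
    rw [← Finset.sum_add_sum_compl I0, Finset.sum_eq_zero fun i hi => hc i hi, zero_add]
  have h5 := Finset.sum_add_sum_compl L0 (fun l => cnt S (y l))
  have h6 : ∑ i ∈ I0, (m i : ℝ)⁻¹ * cnt S (Finset.univ.gcd (fun j => eval x (F i j))) ≤
      ∑ i ∈ I0, (m i : ℝ)⁻¹ * (hcomp (F i) (d i) x + B) :=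
    Finset.sum_le_sum fun i _ => mul_le_mul_of_nonneg_left (hB i) (by positivity)
  rw [h2, h3, h4, ← h5]
  linarith

end Pool.Agent.Y731.GO
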