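import Pool.Agent.Y731.FG.Fin5

/-!
# Function fields: the discriminant and the canonical degree, local heights bounded below,
# multiplicities
-/

set_option autoImplicit false
set_option linter.unusedSectionVars false
set_option linter.unusedVariables false

namespace Pool.Agent.Y731.GO

open FF Filter MvPolynomial Pool.Agent.W603.LV Pool.Agent.W603.PV Pool.Agent.W603.CZ
  Pool.Agent.Y731.FG

section one

variable {k F : Type} [Field k] [IsAlgClosed k] [CharZero k] [Field F] [Algebra k F] [IsFF k F]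

/-- the discriminant is at most the canonical degree plus a multiple of the degree -/
theorem disc_le_canDeg : ∃ C : ℕ, ∀ (L : Type) [Field L] [Algebra k L] [Algebra F L]
    [IsScalarTower k F L] [FiniteDimensional F L], disc k F L ≤ canDeg k L +
      C * Module.finrank F L := by
  classical
  have hF : CharZero F := charZero_of_injective_algebraMap (algebraMap k F).injective
  obtain ⟨D, hD⟩ := exists_der (k := k) (K := F)
  set V : Finset (Place k F) := (vo_finite hD).toFinset with hV
  have hVmem : ∀ v, vo v D ≠ 0 → v ∈ V := fun v hv => by simp [hV, hv]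
  refine ⟨(∑ v ∈ V, |vo v D| * hgt k (unif v)).toNat, ?_⟩
  intro L _ _ _ _ _
  have hL : IsFF k L := isFF_of_finite (F := F)
  obtain ⟨D', hDD'⟩ := exists_ext_der (L := L) D
  have hD' : D' ≠ 0 := by
    rintro rfl
    apply hD
    ext x
    have := hDD' x
    rw [Derivation.coe_zero, Pi.zero_apply, eq_comm, map_eq_zero] at this
    rw [this]; rfl
  set T : Finset (Place k L) := (vo_finite hD').toFinset ∪ (ram_finite (F := F)).toFinset ∪
    (finite_over_set (L := L) (vo_finite hD)).toFinset with hT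
  have h1 := canDeg_finset hD' T fun P hP => by simp [hT, hP]
  have h2 : disc k F L = ∑ P ∈ T, ((ram F P : ℤ) - 1) := by
    unfold disc
    rw [finsum_eq_sum_of_support_subset (s := T)]
    intro P hP
    have hP' : (ram F P : ℤ) - 1 ≠ 0 := hP
    simp only [hT, Finset.coe_union, Set.Finite.coe_toFinset, Set.mem_union, Set.mem_ofPred_eq]
    exact Or.inl (Or.inr hP')
  have h3 : canDeg k L = ∑ P ∈ T, ((ram F P : ℤ) - 1) -
      ∑ P ∈ T, (ram F P : ℤ) * vo (under F P) D := by
    rw [← Finset.sum_sub_distrib]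
    have h4 : canDeg k L = - ∑ P ∈ T, vo P D' := by rw [h1, neg_neg]
    rw [h4, ← Finset.sum_neg_distrib]
    refine Finset.sum_congr rfl fun P _ => ?_
    rw [vo_under hD hD' hDD' P]
    ring
  have h5 : ∑ P ∈ T, (ram F P : ℤ) * vo (under F P) D ≤
      Module.finrank F L * ∑ v ∈ V, |vo v D| * hgt k (unif v) := by
    have h6 : ∑ P ∈ T, (ram F P : ℤ) * vo (under F P) D ≤
        ∑ P ∈ T.filter (fun P => under F P ∈ V), (ram F P : ℤ) * |vo (under F P) D| := by
      rw [Finset.sum_filter]
      refine Finset.sum_le_sum fun P _ => ?_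
      split_ifs with h
      · have h7 := le_abs_self (vo (under F P) D)
        have h8 : (0 : ℤ) ≤ ram F P := by positivity
        nlinarith
      · have h7 : vo (under F P) D = 0 := by
          by_contra hcon
          exact h (hVmem _ hcon)
        rw [h7]; simp
    refine h6.trans ?_
    rw [← Finset.sum_fiberwise_of_maps_to (t := V) (g := fun P => under F P)
      (fun P hP => (Finset.mem_filter.1 hP).2), Finset.mul_sum]
    refine Finset.sum_le_sum fun v _ => ?_
    have h9 : ∑ P ∈ (T.filter (fun P => under F P ∈ V)).filter (fun P => under F P = v),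
        (ram F P : ℤ) * |vo (under F P) D| = (∑ P ∈ (T.filter (fun P => under F P ∈ V)).filter
          (fun P => under F P = v), (ram F P : ℤ)) * |vo v D| := by
      rw [Finset.sum_mul]
      refine Finset.sum_congr rfl fun P hP => ?_
      rw [(Finset.mem_filter.1 hP).2]
    rw [h9]
    have h10 := sum_ram_le (L := L) v (ord_unif v) ((T.filter (fun P => under F P ∈ V)).filter
      (fun P => under F P = v)) fun P hP => (Finset.mem_filter.1 hP).2
    have h11 := mul_le_mul_of_nonneg_right h10 (abs_nonneg (vo v D))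
    linarith
  have h12 : (0 : ℤ) ≤ ∑ v ∈ V, |vo v D| * hgt k (unif v) :=
    Finset.sum_nonneg fun v _ => mul_nonneg (abs_nonneg _) (hgt_nonneg _)
  rw [Int.toNat_of_nonneg h12, h2]
  linarith

variable {L : Type} [Field L] [Algebra k L] [Algebra F L] [IsScalarTower k F L] [IsFF k L]

/-- the sum of the negative parts of the orders of the coefficients -/
noncomputable def cneg {M : ℕ} (P : Place k L) (E : MvPolynomial (Fin M) F) : ℤ :=
  ∑ α ∈ E.support, max (-P.ord (algebraMap F L (coeff α E))) 0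

theorem cneg_nonneg {M : ℕ} (P : Place k L) (E : MvPolynomial (Fin M) F) : 0 ≤ cneg P E :=
  Finset.sum_nonneg fun _ _ => le_max_right _ _

/-- the order of a value is bounded below -/
theorem ord_aeval_ge {M : ℕ} (P : Place k L) {E : MvPolynomial (Fin M) F} {d : ℕ}
    (hE : E.IsHomogeneous d) {x : Fin M → L} (hEx : aeval x E ≠ 0) :
    d * minOrd P x - cneg P E ≤ P.ord (aeval x E) := by
  classical
  have h1 : Ge P (d * minOrd P x - cneg P E) (aeval x E) := by
    rw [aeval_def, eval₂_eq']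
    refine Ge.sum _ _ fun α hα => ?_
    have hd : ∑ c, α c = d := by
      have := hE (mem_support_iff.1 hα)
      rw [← this, Finsupp.weight_apply, Finsupp.sum_fintype _ _ (by simp)]
      simp
    have h2 : Ge P (-cneg P E) (algebraMap F L (coeff α E)) := by
      right
      have h3 : max (-P.ord (algebraMap F L (coeff α E))) 0 ≤ cneg P E :=
        Finset.single_le_sum (f := fun α => max (-P.ord (algebraMap F L (coeff α E))) 0)
          (fun _ _ => le_max_right _ _) hα
      have := le_max_left (-P.ord (algebraMap F L (coeff α E))) 0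
      omega
    have h3 : Ge P (∑ c, (α c : ℤ) * minOrd P x) (∏ c, x c ^ α c) := by
      refine Ge.prod _ _ _ fun c _ => ?_
      refine Ge.pow ?_ _
      by_cases hc : x c = 0
      · exact Or.inl hc
      · exact Or.inr (minOrd_le P hc)
    have h4 : ∑ c, (α c : ℤ) * minOrd P x = d * minOrd P x := by
      rw [← Finset.sum_mul, ← hd]
      push_cast
      rfl
    rw [h4] at h3
    have h5 := h2.mul h3
    refine Ge.mono (by linarith) h5
  exact h1.resolve_left hEx

theorem sum_cneg_le [FiniteDimensional F L] {M : ℕ} (T : Finset (Place k L))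
    (E : MvPolynomial (Fin M) F) :
    ∑ P ∈ T, cneg P E ≤ Module.finrank F L * ∑ α ∈ E.support, hgt k (coeff α E) := by
  classical
  unfold cneg
  rw [Finset.sum_comm, Finset.mul_sum]
  refine Finset.sum_le_sum fun α _ => ?_
  rw [← hgt_algebraMap (L := L) (coeff α E)]
  obtain ⟨T0, hT0⟩ := exists_supp (k := k) (Finset.univ : Finset (Fin 1))
    ![algebraMap F L (coeff α E)]
  have hT1 : ∀ P : Place k L, P.ord (algebraMap F L (coeff α E)) ≠ 0 → P ∈ T ∪ T0 := fun P hP =>
    Finset.mem_union_right _ (hT0 0 (Finset.mem_univ _) P hP)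
  rw [hgt_finset _ (T ∪ T0) hT1]
  exact Finset.sum_le_sum_of_subset_of_nonneg Finset.subset_union_left
    fun _ _ _ => le_max_right _ _

/-- local heights are bounded below -/
theorem locH_ge {M w : ℕ} (P : Place k L) {E : Fin w → MvPolynomial (Fin M) F} {d : Fin w → ℕ}
    (hE : ∀ j, (E j).IsHomogeneous (d j)) {x : Fin M → L} (hEx : ∃ j, aeval x (E j) ≠ 0) :
    -∑ j, cneg P (E j) ≤ locH E d P x := by
  classical
  obtain ⟨j, hj⟩ := hEx
  have : Nonempty {j // aeval x (E j) ≠ 0} := ⟨⟨j, hj⟩⟩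
  refine le_ciInf fun j => ?_
  have h1 := ord_aeval_ge P (hE j.1) j.2
  have h2 : cneg P (E j.1) ≤ ∑ j, cneg P (E j) :=
    Finset.single_le_sum (f := fun j => cneg P (E j)) (fun j _ => cneg_nonneg P _)
      (Finset.mem_univ j.1)
  linarith

end one

/-- **Multiplicities.** The number of the places over the components with a bounded multiplicity -/
theorem orbF {k F : Type} [Field k] [IsAlgClosed k] [CharZero k] [Field F] [Algebra k F]
    [IsFF k F] {M q w : ℕ} (E : Fin q → Fin w → MvPolynomial (Fin M) F) (d : Fin q → Fin w → ℕ)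
    (hE : ∀ i j, (E i j).IsHomogeneous (d i j)) (S : Finset (Place k F)) (m : Fin q → ℕ∞)
    (hm : ∀ i, 1 ≤ m i) :
    ∃ B : ℝ, 0 ≤ B ∧ ∀ (L : Type) [Field L] [Algebra k L] [Algebra F L] [IsScalarTower k F L]
      [FiniteDimensional F L] [IsFF k L] (x : Fin M → L), (∃ c, x c ≠ 0) →
      (∀ i, ∃ j, aeval x (E i j) ≠ 0) →
      (∀ P : Place k L, under F P ∉ S → ∀ i, locH (E i) (d i) P x ≤ 0 ∨
        m i ≤ ((locH (E i) (d i) P x).toNat : ℕ∞)) →
      ({P : Place k L | ∃ i, 0 < locH (E i) (d i) P x}.ncard : ℝ) ≤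
        ∑ i, ((m i).toNat : ℝ)⁻¹ * ((∑ᶠ P : Place k L, locH (E i) (d i) P x : ℤ) : ℝ) +
          B * Module.finrank F L := by
  classical
  set c0 : ℤ := ∑ v ∈ S, hgt k (unif v) with hc0
  have hc0' : 0 ≤ c0 := Finset.sum_nonneg fun v _ => hgt_nonneg _
  set c1 : Fin q → ℤ := fun i => ∑ j, ∑ α ∈ (E i j).support, hgt k (coeff α (E i j)) with hc1
  have hc1' : ∀ i, 0 ≤ c1 i := fun i => Finset.sum_nonneg fun j _ => Finset.sum_nonneg
    fun α _ => hgt_nonneg _
  have hB2 : (0 : ℝ) ≤ ∑ i, ((m i).toNat : ℝ)⁻¹ * (c1 i : ℝ) :=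
    Finset.sum_nonneg fun i _ => mul_nonneg (by positivity) (by exact_mod_cast hc1' i)
  refine ⟨c0 + ∑ i, ((m i).toNat : ℝ)⁻¹ * (c1 i : ℝ), by
    have : (0 : ℝ) ≤ c0 := by exact_mod_cast hc0'
    linarith, ?_⟩
  intro L _ _ _ _ _ _ x hx hEx hC
  have hf1 : (⋃ i : Fin q, {P : Place k L | locH (E i) (d i) P x ≠ 0}).Finite :=
    Set.finite_iUnion fun i => locH_finite hx (hEx i)
  have hf2 : {P : Place k L | under F P ∈ S}.Finite := finite_over_set (Finset.finite_toSet S)
  set T := hf1.toFinset with hT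
  have hT1 : ∀ i P, locH (E i) (d i) P x ≠ 0 → P ∈ T := by
    intro i P hP
    rw [hT, Set.Finite.mem_toFinset]
    exact Set.mem_iUnion.2 ⟨i, hP⟩
  have h1 : ∀ i, ∑ᶠ P : Place k L, locH (E i) (d i) P x = ∑ P ∈ T, locH (E i) (d i) P x := by
    intro i
    rw [finsum_eq_sum_of_support_subset (s := T)]
    exact fun P hP => hT1 i P hP
  -- the places not over `S`
  set T1 := T.filter (fun P => under F P ∉ S ∧ ∃ i, 0 < locH (E i) (d i) P x) with hTT
  have h2 : {P : Place k L | ∃ i, 0 < locH (E i) (d i) P x} ⊆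
      (T1 : Set (Place k L)) ∪ {P : Place k L | under F P ∈ S} := by
    rintro P ⟨i, hi⟩
    by_cases h : under F P ∈ S
    · exact Or.inr h
    · left
      rw [hTT, Finset.coe_filter]
      exact ⟨hT1 i P hi.ne', h, i, hi⟩
  have h3 : ({P : Place k L | ∃ i, 0 < locH (E i) (d i) P x}.ncard : ℝ) ≤
      T1.card + Module.finrank F L * c0 := by
    have h4 := (Set.ncard_le_ncard h2 (T1.finite_toSet.union hf2)).trans
      (Set.ncard_union_le _ _)
    rw [Set.ncard_coe_finset] at h4
    have h5 : (({P : Place k L | under F P ∈ S}.ncard : ℕ) : ℤ) ≤ Module.finrank F L * c0 :=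
      card_over_le S
    have h6 : ({P : Place k L | under F P ∈ S}.ncard : ℝ) ≤ Module.finrank F L * c0 := by
      exact_mod_cast h5
    have h7 : ({P : Place k L | ∃ i, 0 < locH (E i) (d i) P x}.ncard : ℝ) ≤
        T1.card + ({P : Place k L | under F P ∈ S}.ncard : ℝ) := by exact_mod_cast h4
    linarith
  have hng : ∀ (i : Fin q) (P : Place k L), (0 : ℤ) ≤ ∑ j, cneg P (E i j) := fun i P =>
    Finset.sum_nonneg fun j _ => cneg_nonneg P _
  have hlow : ∀ (i : Fin q) (P : Place k L), -∑ j, cneg P (E i j) ≤ locH (E i) (d i) P x :=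
    fun i P =>
    locH_ge P (hE i) (hEx i)
  -- each place in `T1` is counted
  have h4 : (T1.card : ℝ) ≤ ∑ P ∈ T, ∑ i, ((m i).toNat : ℝ)⁻¹ *
      ((locH (E i) (d i) P x + ∑ j, cneg P (E i j) : ℤ) : ℝ) := by
    have hterm : ∀ (P : Place k L) (i : Fin q), (0 : ℝ) ≤ ((m i).toNat : ℝ)⁻¹ *
        ((locH (E i) (d i) P x + ∑ j, cneg P (E i j) : ℤ) : ℝ) := by
      intro P i
      refine mul_nonneg (by positivity) ?_
      have := hlow i P
      exact_mod_cast (by linarith : (0 : ℤ) ≤ locH (E i) (d i) P x + ∑ j, cneg P (E i j))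
    have h5 : (T1.card : ℝ) = ∑ P ∈ T1, (1 : ℝ) := by simp
    rw [h5]
    refine le_trans (Finset.sum_le_sum fun P hP => ?_)
      (Finset.sum_le_sum_of_subset_of_nonneg (Finset.filter_subset _ T) fun P _ _ =>
        Finset.sum_nonneg fun i _ => hterm P i)
    obtain ⟨-, hPS, i, hi⟩ := Finset.mem_filter.1 hP
    refine le_trans ?_ (Finset.single_le_sum (fun i _ => hterm P i) (Finset.mem_univ i))
    have h6 := (hC P hPS i).resolve_left (not_le.2 hi)
    have h7 : m i ≠ ⊤ := by
      intro h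
      rw [h, top_le_iff] at h6
      exact ENat.natCast_ne_top _ h6
    have h8 : ((m i).toNat : ℕ∞) = m i := ENat.natCast_toNat h7
    rw [← h8] at h6
    have h9 : (m i).toNat ≤ (locH (E i) (d i) P x).toNat := by exact_mod_cast h6
    have h10 : 1 ≤ (m i).toNat := by
      have := hm i
      rw [← h8] at this
      exact_mod_cast this
    have h11 : (0 : ℝ) < ((m i).toNat : ℝ) := by exact_mod_cast h10
    have h12 : ((m i).toNat : ℤ) ≤ locH (E i) (d i) P x := by omega
    have h13 : ((m i).toNat : ℝ) ≤ ((locH (E i) (d i) P x + ∑ j, cneg P (E i j) : ℤ) : ℝ) := by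
      have h14 : ((m i).toNat : ℤ) ≤ locH (E i) (d i) P x + ∑ j, cneg P (E i j) := by
        linarith [hng i P]
      exact_mod_cast h14
    rw [inv_mul_eq_div, le_div_iff₀ h11, one_mul]
    exact h13
  have h5 : ∑ P ∈ T, ∑ i, ((m i).toNat : ℝ)⁻¹ *
      ((locH (E i) (d i) P x + ∑ j, cneg P (E i j) : ℤ) : ℝ) =
      ∑ i, ((m i).toNat : ℝ)⁻¹ * ((∑ᶠ P : Place k L, locH (E i) (d i) P x : ℤ) : ℝ) +
        ∑ i, ((m i).toNat : ℝ)⁻¹ * ((∑ P ∈ T, ∑ j, cneg P (E i j) : ℤ) : ℝ) := by
    rw [Finset.sum_comm, ← Finset.sum_add_distrib]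
    refine Finset.sum_congr rfl fun i _ => ?_
    rw [h1 i, ← Finset.mul_sum, ← mul_add]
    congr 1
    push_cast
    rw [Finset.sum_add_distrib]
  have h6 : ∑ i, ((m i).toNat : ℝ)⁻¹ * ((∑ P ∈ T, ∑ j, cneg P (E i j) : ℤ) : ℝ) ≤
      (∑ i, ((m i).toNat : ℝ)⁻¹ * (c1 i : ℝ)) * Module.finrank F L := by
    rw [Finset.sum_mul]
    refine Finset.sum_le_sum fun i _ => ?_
    rw [mul_assoc]
    refine mul_le_mul_of_nonneg_left ?_ (by positivity)
    have h7 : (∑ P ∈ T, ∑ j, cneg P (E i j) : ℤ) ≤ c1 i * Module.finrank F L := by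
      rw [Finset.sum_comm, hc1]
      simp only
      rw [Finset.sum_mul]
      refine Finset.sum_le_sum fun j _ => ?_
      have := sum_cneg_le T (E i j)
      linarith
    exact_mod_cast h7
  rw [h5] at h4
  have h7 : (c0 + ∑ i, ((m i).toNat : ℝ)⁻¹ * (c1 i : ℝ)) * (Module.finrank F L : ℝ) =
      Module.finrank F L * c0 + (∑ i, ((m i).toNat : ℝ)⁻¹ * (c1 i : ℝ)) * Module.finrank F L := by
    ring
  rw [h7]
  linarith

end Pool.Agent.Y731.GO
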